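import Pool.Agent.Lib.MP_688fd0_co.TE.Iface1

/-!
# Theorem E, modules UPD and SEQ
-/

namespace Pool.Agent.Lib.MP_688fd0_co.TE.H57

open Pool.Agent.Lib.MP_688fd0_co.TE

universe u v w

/-- Exchange of the coordinate `i` with an independent copy. -/
def swapE {ι : Type u} [DecidableEq ι] (α : ι → Type v) (i : ι) :
    (∀ j, α j) × α i ≃ (∀ j, α j) × α i where
  toFun p := (Function.update p.1 i p.2, p.1 i)
  invFun p := (Function.update p.1 i p.2, p.1 i)
  left_inv p := by simp
  right_inv p := by simp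

theorem piW_update {ι : Type u} [Fintype ι] [DecidableEq ι] {α : ι → Type v}
    (μ : ∀ i, α i → ℝ) (i : ι) (ω : ∀ j, α j) (a : α i) :
    piW μ ω * μ i a = piW μ (Function.update ω i a) * μ i (ω i) := by
  unfold piW
  rw [← Finset.mul_prod_erase Finset.univ (fun j => μ j (ω j)) (Finset.mem_univ i),
    ← Finset.mul_prod_erase Finset.univ (fun j => μ j (Function.update ω i a j))
      (Finset.mem_univ i)]
  have h : ∏ x ∈ Finset.univ.erase i, μ x (Function.update ω i a x) =
      ∏ x ∈ Finset.univ.erase i, μ x (ω x) := by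
    refine Finset.prod_congr rfl fun j hj => ?_
    rw [Function.update_of_ne (Finset.ne_of_mem_erase hj)]
  rw [h, Function.update_self]
  ring

theorem upd1 {ι : Type u} [Fintype ι] [DecidableEq ι] {α : ι → Type v} [∀ i, Fintype (α i)]
    (μ : ∀ i, α i → ℝ) (hμ : ∀ i, IsPr (μ i)) (F : (∀ i, α i) → ℝ) (i : ι) :
    Ex (piW μ) F = Ex (piW μ) (fun ω => Ex (μ i) (fun a => F (Function.update ω i a))) := by
  unfold Ex
  have h1 : ∀ ω : ∀ j, α j, piW μ ω * ∑ a, μ i a * F (Function.update ω i a) =
      ∑ a, piW μ (Function.update ω i a) * μ i (ω i) * F (Function.update ω i a) := by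
    intro ω
    rw [Finset.mul_sum]
    refine Finset.sum_congr rfl fun a _ => ?_
    rw [← piW_update μ i ω a]
    ring
  rw [Finset.sum_congr rfl fun ω _ => h1 ω]
  rw [← Fintype.sum_prod_type' (f := fun (ω : ∀ j, α j) (a : α i) =>
    piW μ (Function.update ω i a) * μ i (ω i) * F (Function.update ω i a))]
  rw [Fintype.sum_equiv (swapE α i) (fun p => piW μ (Function.update p.1 i p.2) * μ i (p.1 i) *
    F (Function.update p.1 i p.2)) (fun p => piW μ p.1 * μ i p.2 * F p.1) (fun p => rfl)]
  rw [Fintype.sum_prod_type]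
  refine Finset.sum_congr rfl fun ω _ => ?_
  have h2 : ∑ y, piW μ ω * μ i y * F ω = piW μ ω * F ω := by
    rw [← Finset.sum_mul, ← Finset.mul_sum, (hμ i).one, mul_one]
  exact h2.symm

/-- Module UPD. -/
theorem upd (h0 : PIPR_S.{u, v}) : UPD_S.{u, v} := by
  constructor
  · intro ι _ _ α _ μ hμ F i
    exact upd1 μ hμ F i
  · intro ι _ _ α _ μ hμ E i p hp
    have h1 : Pr (piW μ) E = Ex (piW μ) (fun ω => ind (E ω)) := rfl
    rw [h1, upd1 μ hμ _ i]
    have hP := h0.1 ι α μ hμ
    unfold Ex
    calc _ ≤ ∑ ω, piW μ ω * p := by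
          refine Finset.sum_le_sum fun ω _ => ?_
          exact mul_le_mul_of_nonneg_left (hp ω) (hP.nn ω)
      _ = p := by rw [← Finset.sum_mul, hP.one, one_mul]

theorem seq_aux {T : ℕ} {Ω : Type u} [Fintype Ω] (μ : Ω → ℝ) (hμ : IsPr μ)
    (hP : IsPr (piW (fun _ : Fin T => μ)))
    (E : Fin T → (Fin T → Ω) → Prop) (p : ℝ) (hp0 : 0 ≤ p)
    (hE : ∀ t ω ω', (∀ s, s ≤ t → ω s = ω' s) → (E t ω ↔ E t ω'))
    (hp : ∀ t ω, Pr μ (fun a => E t (Function.update ω t a)) ≤ p) (r : ℕ) (hr : r ≤ T) :
    Pr (piW (fun _ : Fin T => μ)) (fun ω => ∀ t : Fin T, t.val < r → E t ω) ≤ p ^ r := by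
  induction r with
  | zero =>
    unfold Pr
    rw [pow_zero]
    calc _ ≤ ∑ ω, piW (fun _ : Fin T => μ) ω := by
          refine Finset.sum_le_sum fun ω _ => ?_
          calc _ ≤ piW (fun _ : Fin T => μ) ω * 1 :=
                mul_le_mul_of_nonneg_left (ind_le_one _) (hP.nn ω)
            _ = _ := mul_one _
      _ ≤ 1 := hP.one.le
  | succ r ih =>
    have ih' := ih (by omega)
    have h1 : Pr (piW (fun _ : Fin T => μ)) (fun ω => ∀ t : Fin T, t.val < r + 1 → E t ω) =
      Ex (piW (fun _ : Fin T => μ)) (fun ω => ind (∀ t : Fin T, t.val < r + 1 → E t ω)) := rfl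
    rw [h1, upd1 (fun _ : Fin T => μ) (fun _ => hμ) _ (⟨r, by omega⟩ : Fin T)]
    have h2 : ∀ ω : Fin T → Ω, Ex μ (fun a => ind (∀ t : Fin T, t.val < r + 1 →
        E t (Function.update ω (⟨r, by omega⟩ : Fin T) a))) ≤
        p * ind (∀ t : Fin T, t.val < r → E t ω) := by
      intro ω
      have h3 : ∀ a, ind (∀ t : Fin T, t.val < r + 1 →
          E t (Function.update ω (⟨r, by omega⟩ : Fin T) a)) =
          ind (∀ t : Fin T, t.val < r → E t ω) *
            ind (E ⟨r, by omega⟩ (Function.update ω (⟨r, by omega⟩ : Fin T) a)) := by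
        intro a
        rw [← ind_and]
        congr 1
        apply propext
        constructor
        · intro h
          refine ⟨fun t ht => ?_, h _ (by simp)⟩
          refine (hE t _ _ fun s hs => ?_).1 (h t (by omega))
          rw [Function.update_of_ne]
          intro hcon
          have h4 : s.val = r := by rw [hcon]
          have h5 : s.val ≤ t.val := hs
          omega
        · rintro ⟨h, h'⟩ t ht
          by_cases htr : t.val = r
          · have : t = ⟨r, by omega⟩ := Fin.ext htr
            rw [this]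
            exact h'
          · refine (hE t _ _ fun s hs => ?_).2 (h t (by omega))
            rw [Function.update_of_ne]
            intro hcon
            have h4 : s.val = r := by rw [hcon]
            have h5 : s.val ≤ t.val := hs
            omega
      have h4 : Ex μ (fun a => ind (∀ t : Fin T, t.val < r + 1 →
          E t (Function.update ω (⟨r, by omega⟩ : Fin T) a))) =
          ind (∀ t : Fin T, t.val < r → E t ω) *
            Pr μ (fun a => E ⟨r, by omega⟩ (Function.update ω (⟨r, by omega⟩ : Fin T) a)) := by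
        unfold Ex Pr
        rw [Finset.mul_sum]
        refine Finset.sum_congr rfl fun a _ => ?_
        have h5 := h3 a
        simp only [h5]
        ring
      rw [h4, mul_comm]
      exact mul_le_mul_of_nonneg_right (hp _ ω) (ind_nonneg _)
    calc _ ≤ ∑ ω, piW (fun _ : Fin T => μ) ω * (p * ind (∀ t : Fin T, t.val < r → E t ω)) := by
          refine Finset.sum_le_sum fun ω _ => ?_
          exact mul_le_mul_of_nonneg_left (h2 ω) (hP.nn ω)
      _ = p * Pr (piW (fun _ : Fin T => μ)) (fun ω => ∀ t : Fin T, t.val < r → E t ω) := by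
          unfold Pr
          rw [Finset.mul_sum]
          refine Finset.sum_congr rfl fun ω _ => ?_
          ring
      _ ≤ p * p ^ r := mul_le_mul_of_nonneg_left ih' hp0
      _ = p ^ (r + 1) := by ring

/-- Module SEQ. -/
theorem seq (h0 : PIPR_S.{0, u}) : SEQ_S.{u} := by
  intro T Ω _ μ hμ E p hp0 hE hp
  have hP := h0.1 (Fin T) (fun _ => Ω) (fun _ => μ) (fun _ => hμ)
  have h := seq_aux μ hμ hP E p hp0 hE hp T le_rfl
  have h1 : Pr (piW (fun _ : Fin T => μ)) (fun ω => ∀ t, E t ω) =
      Pr (piW (fun _ : Fin T => μ)) (fun ω => ∀ t : Fin T, t.val < T → E t ω) := by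
    congr 1
    funext ω
    exact propext ⟨fun h t _ => h t, fun h t => h t t.2⟩
  rw [h1]
  exact h

end Pool.Agent.Lib.MP_688fd0_co.TE.H57
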